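import Mathlib
import Pool.Agent.H20.RigDef
import Pool.Agent.H20.Rig2

set_option autoImplicit false

namespace Pool.Agent.Results.MP_92f261_al.Rigid

open Pool.Agent.H20.RigDef

theorem result (k : Type) [Field k] :
    ∃ (A : Type) (_ : Ring A) (_ : Algebra k A), FiniteDimensional k A ∧ IsLocalAlg A ∧
      IsSymmetricAlg k A ∧ Module.Injective Aᵐᵒᵖ A ∧
      ∃ M : ModuleCat.{0} Aᵐᵒᵖ, Module.Finite Aᵐᵒᵖ M ∧ ¬ Module.Projective Aᵐᵒᵖ M ∧
        Subsingleton (CategoryTheory.Abelian.Ext M M 1) :=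
  ⟨Pool.Agent.H20.Rig1.Al k, inferInstance, inferInstance, inferInstance,
    Pool.Agent.H20.Rig2.loc, Pool.Agent.H20.Rig2.symm,
    Pool.Agent.H20.Rig2.selfinj Pool.Agent.H20.Rig2.symm, _,
    Module.Finite.quotient _ _, Pool.Agent.H20.Rig2.not_proj, Pool.Agent.H20.Rig2.rigid⟩

end Pool.Agent.Results.MP_92f261_al.Rigid
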